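import Mathlib

/-!
# Finiteness of groups of automorphisms without infinitesimal automorphisms
-/

set_option autoImplicit false

open Module

namespace Pool.Agent.J4.H4.PF

universe u v

variable {k : Type u} [Field k] {P : Type v} [CommRing P] [Algebra k P]
  {G : Subgroup (P ≃ₐ[k] P)}

/-- the coefficient functions on the group -/
def cf (G : Subgroup (P ≃ₐ[k] P)) (x : P) (l : Dual k P) : G → k := fun g => l (g.1 x)

/-- representability of the orbit map by functions from `R` -/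
def Rep (R : Subalgebra k (G → k)) (x : P) : Prop :=
  ∃ (ι : Type) (_ : Fintype ι) (c : ι → R) (w : ι → P), ∀ g : G, g.1 x = ∑ i, (c i).1 g • w i

/-- `d` is the derivative of the orbit map of `x` along `δ` -/
def IsD {R : Subalgebra k (G → k)} (δ : R →ₗ[k] k) (x d : P) : Prop :=
  ∀ l : Dual k P, ∃ h : cf G x l ∈ R, δ ⟨cf G x l, h⟩ = l d

theorem IsD.unique {R : Subalgebra k (G → k)} {δ : R →ₗ[k] k} {x d e : P} (h1 : IsD δ x d)
    (h2 : IsD δ x e) : d = e := by
  rw [← sub_eq_zero, ← Module.forall_dual_apply_eq_zero_iff k]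
  intro l
  obtain ⟨a1, b1⟩ := h1 l
  obtain ⟨a2, b2⟩ := h2 l
  rw [map_sub, ← b1, ← b2, sub_self]

theorem IsD.add {R : Subalgebra k (G → k)} {δ : R →ₗ[k] k} {x d y e : P} (h1 : IsD δ x d)
    (h2 : IsD δ y e) : IsD δ (x + y) (d + e) := by
  intro l
  obtain ⟨a1, b1⟩ := h1 l
  obtain ⟨a2, b2⟩ := h2 l
  have e1 : cf G (x + y) l = cf G x l + cf G y l := by
    funext g
    simp [cf]
  refine ⟨e1 ▸ add_mem a1 a2, ?_⟩
  have e2 : (⟨cf G (x + y) l, e1 ▸ add_mem a1 a2⟩ : R) = ⟨cf G x l, a1⟩ + ⟨cf G y l, a2⟩ :=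
    Subtype.ext e1
  rw [e2, map_add, b1, b2, map_add]

theorem IsD.smul {R : Subalgebra k (G → k)} {δ : R →ₗ[k] k} {x d : P} (a : k)
    (h1 : IsD δ x d) : IsD δ (a • x) (a • d) := by
  intro l
  obtain ⟨a1, b1⟩ := h1 l
  have e1 : cf G (a • x) l = a • cf G x l := by
    funext g
    simp [cf]
  refine ⟨e1 ▸ R.smul_mem a1 a, ?_⟩
  have e2 : (⟨cf G (a • x) l, e1 ▸ R.smul_mem a1 a⟩ : R) = a • ⟨cf G x l, a1⟩ :=
    Subtype.ext e1
  rw [e2, map_smul, b1, map_smul]

theorem isD_of_rep {R : Subalgebra k (G → k)} (δ : R →ₗ[k] k) {x : P} {ι : Type} [Fintype ι]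
    (c : ι → R) (w : ι → P) (h : ∀ g : G, g.1 x = ∑ i, (c i).1 g • w i) :
    IsD δ x (∑ i, δ (c i) • w i) := by
  intro l
  have e1 : cf G x l = ((∑ i, l (w i) • c i : R) : G → k) := by
    funext g
    unfold cf
    rw [h g, map_sum]
    simp only [map_smul, smul_eq_mul, AddSubmonoidClass.coe_finsetSum, Finset.sum_apply,
      SetLike.val_smul, Pi.smul_apply]
    exact Finset.sum_congr rfl fun i _ => mul_comm _ _
  refine ⟨e1 ▸ (∑ i, l (w i) • c i : R).2, ?_⟩
  have e2 : (⟨cf G x l, e1 ▸ (∑ i, l (w i) • c i : R).2⟩ : R) = ∑ i, l (w i) • c i :=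
    Subtype.ext e1
  rw [e2, map_sum, map_sum]
  refine Finset.sum_congr rfl fun i _ => ?_
  rw [map_smul, map_smul, smul_eq_mul, smul_eq_mul, mul_comm]

/-- point derivations at `g₀` -/
def PD {R : Subalgebra k (G → k)} (g₀ : G) (δ : R →ₗ[k] k) : Prop :=
  ∀ a b : R, δ (a * b) = a.1 g₀ * δ b + b.1 g₀ * δ a

theorem bil_sum (m : P →ₗ[k] P →ₗ[k] P) {ι κ : Type} [Fintype ι] [Fintype κ] (a : ι → k)
    (w : ι → P) (b : κ → k) (w' : κ → P) : m (∑ i, a i • w i) (∑ j, b j • w' j) =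
      ∑ i, ∑ j, (a i * b j) • m (w i) (w' j) := by
  have e : m (∑ i, a i • w i) = ∑ i, a i • m (w i) := by
    rw [map_sum]
    simp only [map_smul]
  rw [e, LinearMap.sum_apply]
  refine Finset.sum_congr rfl fun i _ => ?_
  rw [LinearMap.smul_apply, map_sum, Finset.smul_sum]
  refine Finset.sum_congr rfl fun j _ => ?_
  rw [map_smul, smul_smul]

theorem rep_bil {R : Subalgebra k (G → k)} (m : P →ₗ[k] P →ₗ[k] P)
    (hm : ∀ g : G, ∀ x y : P, g.1 (m x y) = m (g.1 x) (g.1 y)) {x y : P} {ι κ : Type}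
    [Fintype ι] [Fintype κ] (c : ι → R) (w : ι → P) (h : ∀ g : G, g.1 x = ∑ i, (c i).1 g • w i)
    (c' : κ → R) (w' : κ → P) (h' : ∀ g : G, g.1 y = ∑ i, (c' i).1 g • w' i) (g : G) :
    g.1 (m x y) = ∑ p : ι × κ, (c p.1 * c' p.2).1 g • m (w p.1) (w' p.2) := by
  rw [hm, h, h', Fintype.sum_prod_type, bil_sum]
  rfl

theorem isD_bil {R : Subalgebra k (G → k)} {g₀ : G} {δ : R →ₗ[k] k} (hδ : PD g₀ δ)
    (m : P →ₗ[k] P →ₗ[k] P)
    (hm : ∀ g : G, ∀ x y : P, g.1 (m x y) = m (g.1 x) (g.1 y)) {x y : P} {ι κ : Type}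
    [Fintype ι] [Fintype κ] (c : ι → R) (w : ι → P) (h : ∀ g : G, g.1 x = ∑ i, (c i).1 g • w i)
    (c' : κ → R) (w' : κ → P) (h' : ∀ g : G, g.1 y = ∑ i, (c' i).1 g • w' i) :
    IsD δ (m x y) (m (∑ i, δ (c i) • w i) (g₀.1 y) + m (g₀.1 x) (∑ i, δ (c' i) • w' i)) := by
  have h1 := isD_of_rep δ _ _ (rep_bil m hm c w h c' w' h')
  have e : (m (∑ i, δ (c i) • w i) (g₀.1 y) + m (g₀.1 x) (∑ i, δ (c' i) • w' i)) =
      ∑ p : ι × κ, δ (c p.1 * c' p.2) • m (w p.1) (w' p.2) := by
    rw [h g₀, h' g₀, Fintype.sum_prod_type, bil_sum, bil_sum, ← Finset.sum_add_distrib]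
    refine Finset.sum_congr rfl fun i _ => ?_
    rw [← Finset.sum_add_distrib]
    refine Finset.sum_congr rfl fun j _ => ?_
    rw [hδ, ← add_smul]
    congr 1
    ring
  rw [e]
  exact h1

section

variable {R : Subalgebra k (G → k)}

theorem Rep.add {x y : P} (hx : Rep R x) (hy : Rep R y) : Rep R (x + y) := by
  obtain ⟨ι, _, c, w, h⟩ := hx
  obtain ⟨κ, _, c', w', h'⟩ := hy
  refine ⟨ι ⊕ κ, inferInstance, Sum.elim c c', Sum.elim w w', fun g => ?_⟩
  rw [map_add, h, h', Fintype.sum_sum_type]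
  rfl

theorem Rep.alg (a : k) : Rep R (algebraMap k P a) := by
  refine ⟨Unit, inferInstance, fun _ => 1, fun _ => algebraMap k P a, fun g => ?_⟩
  rw [AlgEquiv.commutes]
  simp

theorem mul_bil (g : G) (x y : P) : g.1 (LinearMap.mul k P x y) =
    LinearMap.mul k P (g.1 x) (g.1 y) := by
  rw [LinearMap.mul_apply', LinearMap.mul_apply', map_mul]

theorem Rep.mul {x y : P} (hx : Rep R x) (hy : Rep R y) : Rep R (x * y) := by
  obtain ⟨ι, _, c, w, h⟩ := hx
  obtain ⟨κ, _, c', w', h'⟩ := hy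
  exact ⟨ι × κ, inferInstance, _, _, rep_bil (LinearMap.mul k P) mul_bil c w h c' w' h'⟩

theorem rep_all {X : Set P} (hX : Algebra.adjoin k X = ⊤) (h : ∀ x ∈ X, Rep R x) (x : P) :
    Rep R x := by
  have hx : x ∈ Algebra.adjoin k X := by rw [hX]; trivial
  induction hx using Algebra.adjoin_induction with
  | mem x hx => exact h x hx
  | algebraMap a => exact Rep.alg a
  | add x y _ _ hx hy => exact hx.add hy
  | mul x y _ _ hx hy => exact hx.mul hy

/-- the derivative of the action along a point derivation -/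
theorem exists_deriv (hR : ∀ x : P, Rep R x) {g₀ : G} {δ : R →ₗ[k] k} (hδ : PD g₀ δ) :
    ∃ D : P →ₗ[k] P, (∀ x, IsD δ x (D x)) ∧
      ∀ m : P →ₗ[k] P →ₗ[k] P, (∀ g : G, ∀ x y : P, g.1 (m x y) = m (g.1 x) (g.1 y)) →
        ∀ x y, D (m x y) = m (D x) (g₀.1 y) + m (g₀.1 x) (D y) := by
  have hR' : ∀ x : P, ∃ (ι : Type) (_ : Fintype ι) (c : ι → R) (w : ι → P),
    ∀ g : G, g.1 x = ∑ i, (c i).1 g • w i := hR
  choose ι fι c w h using hR'
  have h1 : ∀ x, IsD δ x (∑ i, δ (c x i) • w x i) := fun x => isD_of_rep δ _ _ (h x)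
  let D : P →ₗ[k] P :=
    { toFun := fun x => ∑ i, δ (c x i) • w x i
      map_add' := fun x y => (h1 (x + y)).unique ((h1 x).add (h1 y))
      map_smul' := fun a x => (h1 (a • x)).unique ((h1 x).smul a) }
  refine ⟨D, h1, fun m hm x y => ?_⟩
  exact (h1 (m x y)).unique (isD_bil hδ m hm _ _ (h x) _ _ (h y))

theorem isD_mem {δ : R →ₗ[k] k} {x d : P} (h : IsD δ x d) :
    d ∈ Submodule.span k (Set.range fun g : G => g.1 x) := by
  by_contra hd
  obtain ⟨l, hl, hl2⟩ := Submodule.exists_le_ker_of_notMem hd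
  obtain ⟨h1, h2⟩ := h l
  have e : cf G x l = 0 := by
    funext g
    have : g.1 x ∈ LinearMap.ker l := hl2 (Submodule.subset_span ⟨g, rfl⟩)
    exact this
  have e2 : (⟨cf G x l, h1⟩ : R) = 0 := Subtype.ext e
  rw [e2, map_zero] at h2
  exact hl h2.symm

/-- evaluation at a point of the group -/
def ev (R : Subalgebra k (G → k)) (g : G) : R →ₐ[k] k := (Pi.evalAlgHom k (fun _ : G => k) g).comp R.val

theorem ev_apply (g : G) (r : R) : ev R g r = r.1 g := rfl

/-- a point with an ideal which is not idempotent has a point derivation -/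
theorem exists_PD {g₀ : G} (h : RingHom.ker (ev R g₀) * RingHom.ker (ev R g₀) ≠
    RingHom.ker (ev R g₀)) : ∃ δ : R →ₗ[k] k, PD g₀ δ ∧ δ ≠ 0 := by
  obtain ⟨M, hM⟩ : ∃ M : Ideal R, M = RingHom.ker (ev R g₀) := ⟨_, rfl⟩
  rw [← hM] at h
  have hMm : ∀ r : R, r ∈ M ↔ r.1 g₀ = 0 := by
    intro r
    rw [hM, RingHom.mem_ker]
    rfl
  have hle : M * M ≤ M := Ideal.mul_le_left
  obtain ⟨r, hr, hr2⟩ : ∃ r ∈ M, r ∉ M * M := by
    by_contra hc
    push Not at hc
    exact h (le_antisymm hle hc)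
  have hr3 : r ∉ Submodule.span k {(1 : R)} ⊔ (M * M).restrictScalars k := by
    intro hc
    rw [Submodule.mem_sup] at hc
    obtain ⟨y, hy, z, hz, hyz⟩ := hc
    rw [Submodule.mem_span_singleton] at hy
    obtain ⟨a, rfl⟩ := hy
    have hz' : z ∈ M * M := hz
    have h2 := (hMm z).1 (hle hz')
    have h3 := (hMm r).1 hr
    rw [← hyz] at h3
    have h4 : a + z.1 g₀ = 0 := by
      have : (a • (1 : R) + z).1 g₀ = a + z.1 g₀ := by
        simp
      rw [← this]
      exact h3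
    rw [h2, add_zero] at h4
    rw [h4, zero_smul, zero_add] at hyz
    exact hr2 (hyz ▸ hz')
  obtain ⟨δ, hδ, hδ2⟩ := Submodule.exists_le_ker_of_notMem hr3
  have hδ1 : δ 1 = 0 := by
    have : (1 : R) ∈ LinearMap.ker δ :=
      hδ2 (Submodule.mem_sup_left (Submodule.mem_span_singleton_self _))
    exact this
  have hδM : ∀ z ∈ M * M, δ z = 0 := by
    intro z hz
    have : z ∈ LinearMap.ker δ := hδ2 (Submodule.mem_sup_right hz)
    exact this
  refine ⟨δ, fun a b => ?_, fun h0 => hδ (by rw [h0]; rfl)⟩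
  have ha : a - a.1 g₀ • (1 : R) ∈ M := by
    rw [hMm]
    simp
  have hb : b - b.1 g₀ • (1 : R) ∈ M := by
    rw [hMm]
    simp
  have h5 := hδM _ (Ideal.mul_mem_mul ha hb)
  have h6 : (a - a.1 g₀ • (1 : R)) * (b - b.1 g₀ • (1 : R)) =
      a * b - a.1 g₀ • b - b.1 g₀ • a + (a.1 g₀ * b.1 g₀) • (1 : R) := by
    simp only [Algebra.smul_def, map_mul]
    ring
  rw [h6, map_add, map_sub, map_sub, map_smul, map_smul, map_smul, hδ1] at h5
  simp only [smul_eq_mul, mul_zero, add_zero] at h5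
  linear_combination h5

end

/-- the finiteness principle -/
theorem finite_of_no_derivation (G : Subgroup (P ≃ₐ[k] P)) (br : P →ₗ[k] P →ₗ[k] P)
    (hG : ∀ g ∈ G, ∀ a b, g (br a b) = br (g a) (g b)) (X : Set P) (hXf : X.Finite)
    (hX : Algebra.adjoin k X = ⊤)
    (hfin : ∀ x ∈ X, Module.Finite k (Submodule.span k (Set.range fun g : G => g.1 x)))
    (hD : ∀ D : P →ₗ[k] P, (∀ a b, D (a * b) = D a * b + a * D b) →
      (∀ a b, D (br a b) = br (D a) b + br a (D b)) →
      (∀ x ∈ X, D x ∈ Submodule.span k (Set.range fun g : G => g.1 x)) → ∀ x ∈ X, D x = 0) :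
    Finite G := by
  -- coordinates
  have hc : ∀ x : X, ∃ (n : ℕ) (l : Fin n → Dual k P) (w : Fin n → P),
      ∀ g : G, g.1 (x : P) = ∑ i, l i (g.1 (x : P)) • w i := by
    intro x
    have := hfin x x.2
    obtain ⟨W, hW⟩ : ∃ W : Submodule k P,
      W = Submodule.span k (Set.range fun g : G => g.1 (x : P)) := ⟨_, rfl⟩
    rw [← hW] at this
    obtain ⟨π, hπ⟩ := W.subtype.exists_leftInverse_of_injective (Submodule.ker_subtype _)
    let b := Module.finBasis k W
    refine ⟨Module.finrank k W, fun i => (b.coord i) ∘ₗ π, fun i => (b i : P), fun g => ?_⟩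
    have hg : g.1 (x : P) ∈ W := by
      rw [hW]
      exact Submodule.subset_span ⟨g, rfl⟩
    have h1 : π (g.1 (x : P)) = ⟨g.1 (x : P), hg⟩ := LinearMap.congr_fun hπ ⟨g.1 (x : P), hg⟩
    have h2 := b.sum_repr ⟨g.1 (x : P), hg⟩
    have h3 : ((∑ i, b.repr ⟨g.1 (x : P), hg⟩ i • b i : W) : P) = g.1 (x : P) :=
      congrArg Subtype.val h2
    rw [AddSubmonoidClass.coe_finsetSum] at h3
    simp only [LinearMap.comp_apply, h1]
    exact h3.symm
  choose n l w hw using hc
  have : Finite X := hXf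
  obtain ⟨T, hT⟩ : ∃ T : Set (G → k),
    T = Set.range fun p : Σ x : X, Fin (n x) => cf G (p.1 : P) (l p.1 p.2) := ⟨_, rfl⟩
  have hTf : T.Finite := by
    rw [hT]
    exact Set.finite_range _
  obtain ⟨R, hR⟩ : ∃ R : Subalgebra k (G → k), R = Algebra.adjoin k T := ⟨_, rfl⟩
  have hmem : ∀ (x : X) (i : Fin (n x)), cf G (x : P) (l x i) ∈ R := by
    intro x i
    rw [hR, hT]
    exact Algebra.subset_adjoin ⟨⟨x, i⟩, rfl⟩
  have hRep : ∀ x : P, Rep R x := rep_all hX fun x hx =>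
    ⟨Fin (n ⟨x, hx⟩), inferInstance, fun i => ⟨_, hmem ⟨x, hx⟩ i⟩, w ⟨x, hx⟩,
      fun g => hw ⟨x, hx⟩ g⟩
  have hnoeth : IsNoetherianRing R := by
    have : Algebra.FiniteType k R := by
      rw [← Subalgebra.fg_iff_finiteType, hR]
      exact Subalgebra.fg_adjoin_finset hTf.toFinset |> fun h => by simpa using h
    exact Algebra.FiniteType.isNoetherianRing k R
  -- all the maximal ideals of points are idempotent
  have hid : ∀ g : G, RingHom.ker (ev R g) * RingHom.ker (ev R g) = RingHom.ker (ev R g) := by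
    intro g
    by_contra hne
    obtain ⟨δ, hδ, hδ0⟩ := exists_PD hne
    obtain ⟨D, hD1, hD2⟩ := exists_deriv hRep hδ
    have hgi : ∀ (h : G) (x : P), (h⁻¹ : G).1 (h.1 x) = x := by
      intro h x
      have : (h⁻¹ * h : G).1 x = x := by rw [inv_mul_cancel]; rfl
      exact this
    have hGm : ∀ h : G, ∀ a b, h.1 (br a b) = br (h.1 a) (h.1 b) := fun h => hG h.1 h.2
    have key := hD ((g⁻¹ : G).1.toLinearMap ∘ₗ D) (fun a b => by
      have := hD2 (LinearMap.mul k P) mul_bil a b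
      simp only [LinearMap.mul_apply'] at this
      rw [LinearMap.comp_apply, LinearMap.comp_apply, LinearMap.comp_apply, this, map_add]
      show (g⁻¹ : G).1 _ + (g⁻¹ : G).1 _ = _
      rw [map_mul, map_mul, hgi, hgi]
      rfl) (fun a b => by
      have := hD2 br hGm a b
      rw [LinearMap.comp_apply, LinearMap.comp_apply, LinearMap.comp_apply, this, map_add]
      show (g⁻¹ : G).1 _ + (g⁻¹ : G).1 _ = _
      rw [hGm, hGm, hgi, hgi]
      rfl) (fun x _ => by
      have h1 := isD_mem (hD1 x)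
      have h2 : Submodule.span k (Set.range fun h : G => h.1 x) ≤
          (Submodule.span k (Set.range fun h : G => h.1 x)).comap (g⁻¹ : G).1.toLinearMap := by
        rw [Submodule.span_le]
        rintro _ ⟨h, rfl⟩
        exact Submodule.subset_span ⟨g⁻¹ * h, rfl⟩
      exact h2 h1)
    have hD0 : ∀ x ∈ X, D x = 0 := by
      intro x hx
      have h1 := key x hx
      have h2 : (g⁻¹ : G).1 (D x) = 0 := h1
      have h3 : (g⁻¹ : G).1 (D x) = (g⁻¹ : G).1 0 := by rw [h2, map_zero]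
      exact (g⁻¹ : G).1.injective h3
    apply hδ0
    -- δ vanishes on the generators
    have h1 : δ 1 = 0 := by
      have := hδ 1 1
      simp only [mul_one] at this
      have e : (1 : R).1 g = 1 := rfl
      rw [e, one_mul] at this
      linear_combination -this
    have hgen : ∀ (r : G → k) (hr : r ∈ Algebra.adjoin k T), ∀ hr' : r ∈ R, δ ⟨r, hr'⟩ = 0 := by
      intro r hr
      induction hr using Algebra.adjoin_induction with
      | mem r hr =>
        intro hr'
        rw [hT] at hr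
        obtain ⟨⟨x, i⟩, rfl⟩ := hr
        obtain ⟨h2, h3⟩ := hD1 (x : P) (l x i)
        rw [hD0 x x.2, map_zero] at h3
        exact h3
      | algebraMap a =>
        intro hr'
        have e : (⟨algebraMap k (G → k) a, hr'⟩ : R) = a • (1 : R) := by
          apply Subtype.ext
          show algebraMap k (G → k) a = a • (1 : G → k)
          rw [Algebra.algebraMap_eq_smul_one]
        rw [e, map_smul, h1, smul_zero]
      | add a b ha hb iha ihb =>
        intro hr'
        have e : (⟨a + b, hr'⟩ : R) = ⟨a, hR ▸ ha⟩ + ⟨b, hR ▸ hb⟩ := rfl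
        rw [e, map_add, iha, ihb, add_zero]
      | mul a b ha hb iha ihb =>
        intro hr'
        have e : (⟨a * b, hr'⟩ : R) = ⟨a, hR ▸ ha⟩ * ⟨b, hR ▸ hb⟩ := rfl
        rw [e, hδ, iha, ihb, mul_zero, mul_zero, add_zero]
    ext r
    exact hgen r.1 (hR ▸ r.2) r.2
  -- they are minimal primes
  have hmax : ∀ g : G, (RingHom.ker (ev R g)).IsMaximal := by
    intro g
    apply RingHom.ker_isMaximal_of_surjective
    intro a
    exact ⟨algebraMap k R a, rfl⟩
  have hmin : ∀ g : G, RingHom.ker (ev R g) ∈ minimalPrimes R := by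
    intro g
    have hfg : (RingHom.ker (ev R g)).FG := IsNoetherian.noetherian _
    obtain ⟨e, he, hspan⟩ := (Ideal.isIdempotentElem_iff_of_fg _ hfg).1 (hid g)
    refine ⟨⟨(hmax g).isPrime, bot_le⟩, ?_⟩
    rintro q ⟨hq, -⟩ hqle
    have h0 : e * (1 - e) = 0 := by
      rw [mul_sub, mul_one, he.eq, sub_self]
    have h1 : e * (1 - e) ∈ q := by rw [h0]; exact q.zero_mem
    rcases hq.mem_or_mem h1 with h2 | h2
    · rw [hspan, Submodule.span_singleton_le_iff_mem]
      exact h2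
    · exfalso
      have h3 := hqle h2
      have h4 : e ∈ RingHom.ker (ev R g) := by
        rw [hspan]
        exact Submodule.mem_span_singleton_self e
      have h5 := add_mem h3 h4
      rw [sub_add_cancel] at h5
      exact (hmax g).ne_top ((Ideal.eq_top_iff_one _).2 h5)
  have hinj : Function.Injective fun g : G => (⟨RingHom.ker (ev R g), hmin g⟩ : minimalPrimes R) := by
    intro g h hgh
    have h1 : RingHom.ker (ev R g) = RingHom.ker (ev R h) := congrArg Subtype.val hgh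
    have h2 : ∀ r : R, r.1 g = r.1 h := by
      intro r
      have h3 : r - r.1 g • (1 : R) ∈ RingHom.ker (ev R g) := by
        rw [RingHom.mem_ker]
        show (r - r.1 g • (1 : R)).1 g = 0
        simp
      rw [h1, RingHom.mem_ker] at h3
      have h4 : (r - r.1 g • (1 : R)).1 h = 0 := h3
      simp at h4
      linear_combination -h4
    have h3 : ∀ x ∈ X, g.1 x = h.1 x := by
      intro x hx
      rw [hw ⟨x, hx⟩ g, hw ⟨x, hx⟩ h]
      refine Finset.sum_congr rfl fun i _ => ?_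
      have := h2 ⟨_, hmem ⟨x, hx⟩ i⟩
      have h5 : l ⟨x, hx⟩ i (g.1 x) = l ⟨x, hx⟩ i (h.1 x) := this
      rw [h5]
    apply Subtype.ext
    have h4 : (g.1 : P →ₐ[k] P) = (h.1 : P →ₐ[k] P) := by
      apply AlgHom.ext_of_adjoin_eq_top hX
      intro x hx
      exact h3 x hx
    ext x
    exact AlgHom.congr_fun h4 x
  have : Finite (minimalPrimes R) := (minimalPrimes.finite_of_isNoetherianRing R).to_subtype
  exact Finite.of_injective _ hinj

end Pool.Agent.J4.H4.PF
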