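import Mathlib

/-!
# Forms with isolated singularities have no linear syzygies of their partial derivatives
-/

set_option autoImplicit false

open MvPolynomial

namespace Pool.Agent.J4.H4.PF

universe u

section

variable {K : Type u} [Field K]

theorem pderiv_comm' (i j : Fin 3) (f : MvPolynomial (Fin 3) K) :
    pderiv i (pderiv j f) = pderiv j (pderiv i f) := by
  have h : (⁅(pderiv i : Derivation K (MvPolynomial (Fin 3) K) (MvPolynomial (Fin 3) K)),
      pderiv j⁆) = (0 : Derivation K (MvPolynomial (Fin 3) K) (MvPolynomial (Fin 3) K)) := by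
    apply MvPolynomial.derivation_ext
    intro l
    have hs : ∀ a b c : Fin 3, pderiv a ((Pi.single b (1 : MvPolynomial (Fin 3) K) :
        Fin 3 → MvPolynomial (Fin 3) K) c) = 0 := by
      intro a b c
      by_cases h : c = b
      · rw [h, Pi.single_eq_same, Derivation.map_one_eq_zero]
      · rw [Pi.single_eq_of_ne h, map_zero]
    rw [Derivation.commutator_apply, pderiv_X, pderiv_X, Derivation.zero_apply, hs, hs, sub_zero]
  have h2 := congrArg (fun D => D f) h
  simp only [Derivation.commutator_apply, Derivation.zero_apply] at h2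
  exact sub_eq_zero.1 h2

/-- the chain rule for evaluation at polynomials in one variable -/
theorem chain (x : Fin 3 → Polynomial K) (f : MvPolynomial (Fin 3) K) :
    Polynomial.derivative (aeval x f) =
      ∑ j, aeval x (pderiv j f) * Polynomial.derivative (x j) := by
  induction f using MvPolynomial.induction_on with
  | C a => simp
  | add p q hp hq =>
    rw [map_add, map_add, hp, hq, ← Finset.sum_add_distrib]
    refine Finset.sum_congr rfl fun j _ => ?_
    rw [map_add, map_add, add_mul]
  | mul_X p i hp =>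
    rw [map_mul, aeval_X, Polynomial.derivative_mul, hp]
    have h1 : ∀ j, aeval x (pderiv j (p * X i)) * Polynomial.derivative (x j) =
        (aeval x (pderiv j p) * Polynomial.derivative (x j)) * x i +
        aeval x p * (if j = i then Polynomial.derivative (x j) else 0) := by
      intro j
      rw [Derivation.leibniz, map_add, smul_eq_mul, smul_eq_mul, map_mul, map_mul, aeval_X,
        pderiv_X]
      by_cases h : j = i
      · subst h
        rw [if_pos rfl, Pi.single_eq_same, map_one]
        ring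
      · rw [if_neg h, Pi.single_eq_of_ne (Ne.symm h), map_zero]
        ring
    rw [Finset.sum_congr rfl fun j _ => h1 j, Finset.sum_add_distrib, ← Finset.sum_mul,
      ← Finset.mul_sum]
    simp

/-- the top coefficient -/
theorem top_coeff {m D : ℕ} {x : Fin 3 → Polynomial K} (hx : ∀ l, (x l).natDegree ≤ m)
    {f : MvPolynomial (Fin 3) K} (hf : f.IsHomogeneous D) :
    (aeval x f).coeff (m * D) = eval (fun l => (x l).coeff m) f := by
  rw [aeval_def, eval₂_eq', eval_eq', Polynomial.finsetSum_coeff]
  refine Finset.sum_congr rfl fun d hd => ?_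
  have hdeg : d 0 + d 1 + d 2 = D := by
    have h1 : d.degree = D := by
      by_contra h
      exact (mem_support_iff.1 hd) (hf.coeff_eq_zero h)
    rw [← h1, Finsupp.degree_eq_sum, Fin.sum_univ_three]
  rw [Polynomial.algebraMap_eq, Polynomial.coeff_C_mul, Fin.prod_univ_three, Fin.prod_univ_three]
  congr 1
  have e : m * D = (d 0 * m + d 1 * m) + d 2 * m := by rw [← hdeg]; ring
  have n0 : ∀ l, (x l ^ d l).natDegree ≤ d l * m := fun l =>
    Polynomial.natDegree_pow_le_of_le _ (hx l)
  rw [e, Polynomial.coeff_mul_add_eq_of_natDegree_le (Polynomial.natDegree_mul_le_of_le (n0 0) (n0 1))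
    (n0 2), Polynomial.coeff_mul_add_eq_of_natDegree_le (n0 0) (n0 1),
    Polynomial.coeff_pow_of_natDegree_le (hx 0), Polynomial.coeff_pow_of_natDegree_le (hx 1),
    Polynomial.coeff_pow_of_natDegree_le (hx 2)]

/-- the linear vector field of a matrix -/
noncomputable def lin (N : Matrix (Fin 3) (Fin 3) K) (l : Fin 3) : MvPolynomial (Fin 3) K :=
  ∑ m, C (N l m) * X m

theorem pderiv_lin (N : Matrix (Fin 3) (Fin 3) K) (l m : Fin 3) :
    pderiv m (lin N l) = C (N l m) := by
  unfold lin
  rw [map_sum]
  simp only [Derivation.leibniz, pderiv_C, pderiv_X, smul_eq_mul]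
  simp [Pi.single_apply]

/-- the differentiated syzygy -/
theorem diff_syz {N : Matrix (Fin 3) (Fin 3) K} {Ω : MvPolynomial (Fin 3) K}
    (hN : ∑ l, lin N l * pderiv l Ω = 0) (m : Fin 3) :
    ∑ l, lin N l * pderiv l (pderiv m Ω) = -∑ l, C (N l m) * pderiv l Ω := by
  have h := congrArg (pderiv m) hN
  rw [map_sum, map_zero] at h
  have h1 : ∀ l, pderiv m (lin N l * pderiv l Ω) =
      lin N l * pderiv l (pderiv m Ω) + C (N l m) * pderiv l Ω := by
    intro l
    rw [Derivation.leibniz, pderiv_lin, smul_eq_mul, smul_eq_mul, pderiv_comm' m l]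
    ring
  rw [Finset.sum_congr rfl fun l _ => h1 l, Finset.sum_add_distrib] at h
  exact eq_neg_of_add_eq_zero_left h

theorem first_deriv {N : Matrix (Fin 3) (Fin 3) K} {Ω : MvPolynomial (Fin 3) K}
    (hN : ∑ l, lin N l * pderiv l Ω = 0) {x : Fin 3 → Polynomial K}
    (hlin : ∀ l, aeval x (lin N l) = Polynomial.derivative (x l)) (l : Fin 3) :
    Polynomial.derivative (aeval x (pderiv l Ω)) =
        -∑ j, Polynomial.C (N j l) * aeval x (pderiv j Ω) := by
  have h3 : aeval x (∑ j, lin N j * pderiv j (pderiv l Ω)) =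
      aeval x (-∑ j, C (N j l) * pderiv j Ω) := by rw [diff_syz hN l]
  rw [map_sum, map_neg, map_sum] at h3
  rw [chain]
  have e1 : ∀ j, aeval x (pderiv j (pderiv l Ω)) * Polynomial.derivative (x j) =
      aeval x (lin N j * pderiv j (pderiv l Ω)) := by
    intro j
    rw [map_mul, hlin, mul_comm]
  have e2 : ∀ j, aeval x (C (N j l) * pderiv j Ω) =
      Polynomial.C (N j l) * aeval x (pderiv j Ω) := by
    intro j
    rw [map_mul, aeval_C, Polynomial.algebraMap_eq]
  rw [Finset.sum_congr rfl fun j _ => e1 j, h3, Finset.sum_congr rfl fun j _ => e2 j]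

theorem iter_aux {N : Matrix (Fin 3) (Fin 3) K} {y : Fin 3 → Polynomial K}
    (hy : ∀ l, Polynomial.derivative (y l) = -∑ j, Polynomial.C (N j l) * y j) (k : ℕ)
    (l : Fin 3) : Polynomial.derivative^[k] (y l) =
      Polynomial.C ((-1) ^ k) * ∑ j, Polynomial.C ((N ^ k) j l) * y j := by
  induction k generalizing l with
  | zero =>
    simp [Matrix.one_apply]
  | succ k ih =>
    rw [Function.iterate_succ_apply', ih, Polynomial.derivative_C_mul, Polynomial.derivative_sum]
    have e0 : ∀ j, Polynomial.derivative (Polynomial.C ((N ^ k) j l) * y j) =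
        -∑ i, Polynomial.C ((N ^ k) j l) * (Polynomial.C (N i j) * y i) := by
      intro j
      rw [Polynomial.derivative_C_mul, hy, mul_neg, Finset.mul_sum]
    rw [Finset.sum_congr rfl fun j _ => e0 j, Finset.sum_neg_distrib, Finset.sum_comm]
    have e1 : ∀ i, ∑ j, Polynomial.C ((N ^ k) j l) * (Polynomial.C (N i j) * y i) =
        Polynomial.C ((N ^ (k + 1)) i l) * y i := by
      intro i
      rw [pow_succ', Matrix.mul_apply, map_sum, Finset.sum_mul]
      refine Finset.sum_congr rfl fun j _ => ?_
      rw [map_mul]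
      ring
    have e2 : Polynomial.C ((-1 : K) ^ (k + 1)) = -Polynomial.C ((-1 : K) ^ k) := by
      rw [pow_succ, mul_neg, mul_one, map_neg]
    rw [Finset.sum_congr rfl fun i _ => e1 i, e2, mul_neg, neg_mul]

theorem iter_deriv {N : Matrix (Fin 3) (Fin 3) K} {Ω : MvPolynomial (Fin 3) K}
    (hN : ∑ l, lin N l * pderiv l Ω = 0) {x : Fin 3 → Polynomial K}
    (hlin : ∀ l, aeval x (lin N l) = Polynomial.derivative (x l)) (k : ℕ) (l : Fin 3) :
    Polynomial.derivative^[k] (aeval x (pderiv l Ω)) =
      Polynomial.C ((-1) ^ k) * ∑ j, Polynomial.C ((N ^ k) j l) * aeval x (pderiv j Ω) :=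
  iter_aux (y := fun l => aeval x (pderiv l Ω)) (first_deriv hN hlin) k l

variable [CharZero K]

theorem nil_step {N : Matrix (Fin 3) (Fin 3) K} {Ω : MvPolynomial (Fin 3) K} {n : ℕ}
    (hn : 3 ≤ n) (hΩ : Ω.IsHomogeneous n)
    (H : ∀ v : Fin 3 → K, (∀ l, eval v (pderiv l Ω) = 0) → v = 0)
    (hN : ∑ l, lin N l * pderiv l Ω = 0) {m : ℕ} (hm : 1 ≤ m) (hnil : N ^ (m + 1) = 0) :
    N ^ m = 0 := by
  have hw : ∀ w : Fin 3 → K, (N ^ m).mulVec w = 0 := by
    intro w
    obtain ⟨a, ha⟩ : ∃ a : ℕ → Fin 3 → K,
      a = fun i => ((i.factorial : K)⁻¹) • (N ^ i).mulVec w := ⟨_, rfl⟩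
    have hf : ∀ i : ℕ, (i.factorial : K) ≠ 0 := fun i => by exact_mod_cast i.factorial_ne_zero
    have ha1 : ∀ i, N.mulVec (a i) = ((i : K) + 1) • a (i + 1) := by
      intro i
      rw [ha]
      simp only
      rw [Matrix.mulVec_smul, Matrix.mulVec_mulVec, ← pow_succ', smul_smul]
      congr 1
      rw [Nat.factorial_succ]
      push_cast
      have h1 : ((i : K) + 1) ≠ 0 := by exact_mod_cast Nat.succ_ne_zero i
      field_simp [hf i]
    have ha2 : a (m + 1) = 0 := by
      rw [ha]
      simp only
      rw [hnil, Matrix.zero_mulVec, smul_zero]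
    obtain ⟨x, hx⟩ : ∃ x : Fin 3 → Polynomial K, x = fun l =>
      ∑ i ∈ Finset.range (m + 1), Polynomial.C (a i l) * Polynomial.X ^ i := ⟨_, rfl⟩
    have hxd : ∀ l, Polynomial.derivative (x l) = ∑ j, Polynomial.C (N l j) * x j := by
      intro l
      have e1 : ∑ j, Polynomial.C (N l j) * x j = ∑ i ∈ Finset.range (m + 1),
          Polynomial.C (((i : K) + 1) * a (i + 1) l) * Polynomial.X ^ i := by
        rw [hx]
        simp only [Finset.mul_sum]
        rw [Finset.sum_comm]
        refine Finset.sum_congr rfl fun i _ => ?_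
        have h2 : ((i : K) + 1) * a (i + 1) l = ∑ j, N l j * a i j := by
          have := congrFun (ha1 i) l
          rw [Pi.smul_apply, smul_eq_mul] at this
          rw [← this]
          rfl
        rw [h2, map_sum, Finset.sum_mul]
        refine Finset.sum_congr rfl fun j _ => ?_
        rw [map_mul]
        ring
      rw [e1, Finset.sum_range_succ, ha2, hx]
      simp only [Pi.zero_apply, mul_zero, map_zero, zero_mul, add_zero]
      rw [Finset.sum_range_succ', map_add, map_sum]
      simp only [pow_zero, mul_one, Polynomial.derivative_C, add_zero]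
      refine Finset.sum_congr rfl fun i _ => ?_
      rw [Polynomial.derivative_C_mul_X_pow, Nat.add_sub_cancel]
      congr 2
      push_cast
      ring
    have hxn : ∀ l, (x l).natDegree ≤ m := by
      intro l
      rw [hx]
      apply Polynomial.natDegree_sum_le_of_forall_le
      intro i hi
      refine (Polynomial.natDegree_C_mul_X_pow_le _ _).trans ?_
      have := Finset.mem_range.1 hi
      omega
    have hxc : ∀ l, (x l).coeff m = a m l := by
      intro l
      rw [hx]
      simp only [Polynomial.finsetSum_coeff, Polynomial.coeff_C_mul, Polynomial.coeff_X_pow]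
      rw [Finset.sum_eq_single m]
      · simp
      · intro i _ hi
        rw [if_neg (Ne.symm hi), mul_zero]
      · intro h
        exact absurd (Finset.mem_range.2 (Nat.lt_succ_self m)) h
    have hlin : ∀ l, aeval x (lin N l) = Polynomial.derivative (x l) := by
      intro l
      rw [hxd]
      unfold lin
      rw [map_sum]
      refine Finset.sum_congr rfl fun j _ => ?_
      rw [map_mul, aeval_X, aeval_C]
      rfl
    have hit := iter_deriv hN hlin
    have h4 : ∀ l, eval (a m) (pderiv l Ω) = 0 := by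
      intro l
      have hhom : (pderiv l Ω).IsHomogeneous (n - 1) := hΩ.pderiv
      have h5 := top_coeff hxn hhom
      have e3 : (fun l => (x l).coeff m) = a m := funext hxc
      rw [e3] at h5
      rw [← h5]
      have h6 := hit (m + 1) l
      rw [hnil] at h6
      simp only [Matrix.zero_apply, map_zero, zero_mul, Finset.sum_const_zero, mul_zero] at h6
      have h7 : m + 1 ≤ m * (n - 1) := by
        obtain ⟨q, hq⟩ : ∃ q, n - 1 = q + 2 := ⟨n - 3, by omega⟩
        rw [hq]
        nlinarith
      obtain ⟨i, hi⟩ := Nat.exists_eq_add_of_le h7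
      have h8 := congrArg (fun p => Polynomial.coeff p i) h6
      simp only [Polynomial.coeff_iterate_derivative, Polynomial.coeff_zero] at h8
      have e4 : i + (m + 1) = m * (n - 1) := by omega
      rw [e4, nsmul_eq_mul] at h8
      rcases mul_eq_zero.1 h8 with h9 | h9
      · exfalso
        have h10 : (m * (n - 1)).descFactorial (m + 1) = 0 := by exact_mod_cast h9
        rw [Nat.descFactorial_eq_zero_iff_lt] at h10
        omega
      · exact h9
    have h5 := H _ h4
    rw [ha] at h5
    simp only at h5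
    rcases smul_eq_zero.1 h5 with h6 | h6
    · exact absurd h6 (inv_ne_zero (hf m))
    · exact h6
  ext i j
  have h1 := congrFun (hw (Pi.single j 1)) i
  rw [Matrix.mulVec_single_one] at h1
  exact h1

omit [CharZero K] in
theorem eval_lin (N : Matrix (Fin 3) (Fin 3) K) (v : Fin 3 → K) (l : Fin 3) :
    eval v (lin N l) = N.mulVec v l := by
  unfold lin
  rw [map_sum]
  simp only [map_mul, eval_C, eval_X]
  rfl

theorem eig_step {N : Matrix (Fin 3) (Fin 3) K} {Ω : MvPolynomial (Fin 3) K} {q : ℕ}
    (hΩ : Ω.IsHomogeneous (q + 1))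
    (H : ∀ v : Fin 3 → K, (∀ l, eval v (pderiv l Ω) = 0) → v = 0)
    (hN : ∑ l, lin N l * pderiv l Ω = 0) {c : K}
    (hc : (N - c • (1 : Matrix (Fin 3) (Fin 3) K)).det = 0) :
    (N - (-(q : K) * c) • (1 : Matrix (Fin 3) (Fin 3) K)).det = 0 := by
  obtain ⟨v, hv0, hv⟩ := Matrix.exists_mulVec_eq_zero_iff.2 hc
  have hv1 : N.mulVec v = c • v := by
    rw [Matrix.sub_mulVec, Matrix.smul_mulVec, Matrix.one_mulVec] at hv
    exact sub_eq_zero.1 hv
  rw [← Matrix.det_transpose]
  apply Matrix.exists_mulVec_eq_zero_iff.1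
  refine ⟨fun l => eval v (pderiv l Ω), fun h => hv0 (H v fun l => congrFun h l), ?_⟩
  funext m
  have h1 := congrArg (eval v) (diff_syz hN m)
  rw [map_sum, map_neg, map_sum] at h1
  simp only [map_mul, eval_lin, eval_C, hv1, Pi.smul_apply, smul_eq_mul] at h1
  have hhom : (pderiv m Ω).IsHomogeneous q := hΩ.pderiv
  have h2 := congrArg (eval v) hhom.sum_X_mul_pderiv
  rw [map_sum] at h2
  simp only [map_mul, eval_X, nsmul_eq_mul, map_natCast] at h2
  have h3 : ∑ l, c * v l * eval v (pderiv l (pderiv m Ω)) = c * ((q : K) * eval v (pderiv m Ω)) := by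
    rw [← h2, Finset.mul_sum]
    exact Finset.sum_congr rfl fun l _ => by ring
  rw [h3] at h1
  rw [Matrix.transpose_sub, Matrix.transpose_smul, Matrix.transpose_one, Matrix.sub_mulVec,
    Matrix.smul_mulVec, Matrix.one_mulVec, Pi.sub_apply, Pi.smul_apply, smul_eq_mul, Pi.zero_apply]
  have h4 : Matrix.mulVec N.transpose (fun l => eval v (pderiv l Ω)) m =
      ∑ l, N l m * eval v (pderiv l Ω) := rfl
  rw [h4]
  linear_combination h1

omit [CharZero K] in
theorem det_iff (N : Matrix (Fin 3) (Fin 3) K) (c : K) :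
    (N - c • (1 : Matrix (Fin 3) (Fin 3) K)).det = 0 ↔ N.charpoly.eval c = 0 := by
  rw [Matrix.eval_charpoly]
  have e : Matrix.scalar (Fin 3) c - N = -(N - c • (1 : Matrix (Fin 3) (Fin 3) K)) := by
    rw [neg_sub, Matrix.scalar_apply, Matrix.smul_one_eq_diagonal]
  rw [e, Matrix.det_neg]
  simp

theorem nilp [IsAlgClosed K] {N : Matrix (Fin 3) (Fin 3) K} {Ω : MvPolynomial (Fin 3) K} {q : ℕ}
    (hq : 2 ≤ q) (hΩ : Ω.IsHomogeneous (q + 1))
    (H : ∀ v : Fin 3 → K, (∀ l, eval v (pderiv l Ω) = 0) → v = 0)
    (hN : ∑ l, lin N l * pderiv l Ω = 0) : N ^ 3 = 0 := by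
  classical
  have hmon : N.charpoly.Monic := N.charpoly_monic
  have hne : N.charpoly ≠ 0 := hmon.ne_zero
  have hroot : ∀ c : K, N.charpoly.eval c = 0 → c = 0 := by
    intro c hc
    by_contra hc0
    have hall : ∀ j : ℕ, N.charpoly.eval ((-(q : K)) ^ j * c) = 0 := by
      intro j
      induction j with
      | zero => simpa using hc
      | succ j ih =>
        have := eig_step hΩ H hN ((det_iff N _).2 ih)
        rw [det_iff] at this
        have e : -(q : K) * ((-(q : K)) ^ j * c) = (-(q : K)) ^ (j + 1) * c := by ring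
        rwa [e] at this
    have hinj : Function.Injective fun j : ℕ => (-(q : K)) ^ j * c := by
      intro i j hij
      have h1 : (-(q : K)) ^ i = (-(q : K)) ^ j := mul_right_cancel₀ hc0 hij
      have h2 : ((-(q : ℤ)) ^ i : ℤ) = (-(q : ℤ)) ^ j := by
        have h3 : (((-(q : ℤ)) ^ i : ℤ) : K) = (((-(q : ℤ)) ^ j : ℤ) : K) := by
          push_cast
          exact h1
        exact_mod_cast h3
      have h4 := congrArg Int.natAbs h2
      rw [Int.natAbs_pow, Int.natAbs_pow, Int.natAbs_neg, Int.natAbs_natCast] at h4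
      exact Nat.pow_right_injective hq h4
    have hfin : (Set.range fun j : ℕ => (-(q : K)) ^ j * c).Finite := by
      refine (N.charpoly.roots.toFinset.finite_toSet).subset ?_
      rintro _ ⟨j, rfl⟩
      rw [Finset.mem_coe, Multiset.mem_toFinset, Polynomial.mem_roots hne]
      exact hall j
    exact Set.infinite_range_of_injective hinj hfin
  have hs := (IsAlgClosed.splits N.charpoly).eq_prod_roots_of_monic hmon
  have hcard : Multiset.card N.charpoly.roots = 3 := by
    rw [← (IsAlgClosed.splits N.charpoly).natDegree_eq_card_roots, Matrix.charpoly_natDegree_eq_dim]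
    rfl
  have hrep : N.charpoly.roots = Multiset.replicate 3 0 := by
    rw [Multiset.eq_replicate]
    refine ⟨hcard, fun b hb => ?_⟩
    exact hroot b (Polynomial.isRoot_of_mem_roots hb)
  rw [hrep, Multiset.map_replicate, Multiset.prod_replicate, map_zero, sub_zero] at hs
  have h5 := Matrix.aeval_self_charpoly N
  rw [hs, map_pow, Polynomial.aeval_X] at h5
  exact h5

/-- no linear syzygies, algebraically closed fields -/
theorem no_syz_closed [IsAlgClosed K] {N : Matrix (Fin 3) (Fin 3) K} {Ω : MvPolynomial (Fin 3) K}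
    {n : ℕ} (hn : 3 ≤ n) (hΩ : Ω.IsHomogeneous n)
    (H : ∀ v : Fin 3 → K, (∀ l, eval v (pderiv l Ω) = 0) → v = 0)
    (hN : ∑ l, lin N l * pderiv l Ω = 0) : N = 0 := by
  obtain ⟨q, rfl⟩ : ∃ q, n = q + 1 := ⟨n - 1, by omega⟩
  have h3 := nilp (by omega) hΩ H hN
  have h2 := nil_step hn hΩ H hN (m := 2) (by norm_num) h3
  have h1 := nil_step hn hΩ H hN (m := 1) (by norm_num) h2
  rwa [pow_one] at h1

/-- no linear syzygies -/
theorem no_syz {N : Matrix (Fin 3) (Fin 3) K} {Ω : MvPolynomial (Fin 3) K}
    {n : ℕ} (hn : 3 ≤ n) (hΩ : Ω.IsHomogeneous n)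
    (H : ∀ l : Fin 3, ∃ M : ℕ, X l ^ M ∈ Ideal.span (Set.range fun j : Fin 3 => pderiv j Ω))
    (hN : ∑ l, lin N l * pderiv l Ω = 0) : N = 0 := by
  let φ : K →+* AlgebraicClosure K := algebraMap K (AlgebraicClosure K)
  have hφ : Function.Injective φ := φ.injective
  have : CharZero (AlgebraicClosure K) := charZero_of_injective_algebraMap hφ
  have hΩ' : (map φ Ω).IsHomogeneous n := hΩ.map φ
  have hpd : ∀ l, pderiv l (map φ Ω) = map φ (pderiv l Ω) := fun l => pderiv_map
  have H' : ∀ v : Fin 3 → AlgebraicClosure K, (∀ l, eval v (pderiv l (map φ Ω)) = 0) → v = 0 := by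
    intro v hv
    funext l
    obtain ⟨M, hM⟩ := H l
    have h1 : ∀ f ∈ Ideal.span (Set.range fun j : Fin 3 => pderiv j Ω),
        eval v (map φ f) = 0 := by
      intro f hf
      have h2 : Ideal.span (Set.range fun j : Fin 3 => pderiv j Ω) ≤
          RingHom.ker ((eval v).comp (map φ)) := by
        rw [Ideal.span_le]
        rintro _ ⟨j, rfl⟩
        have := hv j
        rw [hpd] at this
        exact this
      exact h2 hf
    have h3 := h1 _ hM
    rw [map_pow, map_X, map_pow, eval_X] at h3
    have hM0 : M ≠ 0 := by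
      intro h
      rw [h, pow_zero] at h3
      exact one_ne_zero h3
    exact (pow_eq_zero_iff hM0).1 h3
  have hN' : ∑ l, lin (N.map φ) l * pderiv l (map φ Ω) = 0 := by
    have h4 := congrArg (map φ) hN
    rw [map_sum, map_zero] at h4
    rw [← h4]
    refine Finset.sum_congr rfl fun l _ => ?_
    rw [map_mul, hpd]
    congr 1
    unfold lin
    rw [map_sum]
    refine Finset.sum_congr rfl fun m _ => ?_
    rw [map_mul, map_C, map_X]
    rfl
  have h5 := no_syz_closed hn hΩ' H' hN'
  ext i j
  have h6 := congrFun (congrFun h5 i) j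
  have h7 : φ (N i j) = φ 0 := by
    rw [map_zero]
    exact h6
  exact hφ h7

end

end Pool.Agent.J4.H4.PF
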