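import Mathlib
import Pool.Agent.N1.Poi.Main
import Pool.Agent.J4.H4.PF.Syz

/-!
# Poisson derivations of degree zero of one potential quotient vanish
-/

set_option autoImplicit false

open MvPolynomial
open Pool.Agent.N1.Poi

namespace Pool.Agent.J4.H4.PF

universe u

variable {k : Type u} [Field k] {Ω : MvPolynomial (Fin 3) k} {n : ℕ} {ξ : k}

theorem deg_ge (hΩ : Ω.IsHomogeneous n) (h0 : Ω ≠ 0) (hn : n ≠ 0) :
    n ≤ (Ω - C ξ).totalDegree := by
  by_contra h
  push Not at h
  have h1 : homogeneousComponent n (Ω - C ξ) = 0 := homogeneousComponent_eq_zero n _ h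
  rw [map_sub] at h1
  have h2 : homogeneousComponent n (C ξ : MvPolynomial (Fin 3) k) = 0 := by
    apply homogeneousComponent_eq_zero
    rw [totalDegree_C]
    exact Nat.pos_of_ne_zero hn
  have h3 : homogeneousComponent n Ω = Ω := by
    rw [homogeneousComponent_of_mem hΩ, if_pos rfl]
  rw [h2, sub_zero, h3] at h1
  exact h0 h1

/-- elements of small degree in the ideal of the surface -/
theorem mem_span_small (hΩ : Ω.IsHomogeneous n) (h0 : Ω ≠ 0) (hn : n ≠ 0)
    {f : MvPolynomial (Fin 3) k} (hf : f ∈ Ideal.span {Ω - C ξ}) (hd : f.totalDegree ≤ n) :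
    ∃ c : k, f = C c * (Ω - C ξ) := by
  obtain ⟨h, rfl⟩ := Ideal.mem_span_singleton'.1 hf
  have hg := deg_ge (ξ := ξ) hΩ h0 hn
  by_cases hh : h = 0
  · exact ⟨0, by rw [hh, C_0]⟩
  have hne : Ω - C ξ ≠ 0 := by
    intro h1
    rw [h1, totalDegree_zero] at hg
    omega
  rw [totalDegree_mul_of_isDomain hh hne] at hd
  have h2 : h.totalDegree = 0 := by omega
  exact ⟨_, by rw [← totalDegree_eq_zero_iff_eq_C.1 h2]⟩

theorem mem_span_lt (hΩ : Ω.IsHomogeneous n) (h0 : Ω ≠ 0) (hn : n ≠ 0)
    {f : MvPolynomial (Fin 3) k} (hf : f ∈ Ideal.span {Ω - C ξ}) (hd : f.totalDegree < n) :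
    f = 0 := by
  obtain ⟨c, hc⟩ := mem_span_small hΩ h0 hn hf hd.le
  by_cases h : c = 0
  · rw [hc, h, C_0, zero_mul]
  · exfalso
    have hg := deg_ge (ξ := ξ) hΩ h0 hn
    have hne : Ω - C ξ ≠ 0 := by
      intro h1
      rw [h1, totalDegree_zero] at hg
      omega
    rw [hc, totalDegree_mul_of_isDomain (by rwa [Ne, C_eq_zero]) hne, totalDegree_C] at hd
    omega

/-- derivations are determined by the values on the variables -/
theorem der_mk {D : PotQuot Ω ξ →ₗ[k] PotQuot Ω ξ} (hD : ∀ a b, D (a * b) = D a * b + a * D b)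
    (f : MvPolynomial (Fin 3) k) :
    D (pmk Ω ξ f) = ∑ l, pmk Ω ξ (pderiv l f) * D (pmk Ω ξ (X l)) := by
  have h1 : D 1 = 0 := by
    have := hD 1 1
    rw [mul_one, mul_one, one_mul] at this
    exact left_eq_add.1 this
  induction f using MvPolynomial.induction_on with
  | C a =>
    have e : pmk Ω ξ (C a) = a • 1 := by
      rw [← Algebra.algebraMap_eq_smul_one]
      exact (pmk Ω ξ).commutes a
    rw [e, map_smul, h1, smul_zero]
    simp
  | add p q hp hq =>
    rw [map_add, map_add, hp, hq, ← Finset.sum_add_distrib]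
    refine Finset.sum_congr rfl fun l _ => ?_
    rw [map_add, map_add, add_mul]
  | mul_X p i hp =>
    rw [map_mul, hD, hp]
    have h2 : ∀ l, pmk Ω ξ (pderiv l (p * X i)) * D (pmk Ω ξ (X l)) =
        (pmk Ω ξ (pderiv l p) * D (pmk Ω ξ (X l))) * pmk Ω ξ (X i) +
        pmk Ω ξ p * (if l = i then D (pmk Ω ξ (X l)) else 0) := by
      intro l
      rw [Derivation.leibniz, map_add, smul_eq_mul, smul_eq_mul, map_mul, map_mul, pderiv_X]
      by_cases h : l = i
      · subst h
        rw [if_pos rfl, Pi.single_eq_same, map_one]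
        ring
      · rw [if_neg h, Pi.single_eq_of_ne (Ne.symm h), map_zero]
        ring
    rw [Finset.sum_congr rfl fun l _ => h2 l, Finset.sum_add_distrib, ← Finset.sum_mul,
      ← Finset.mul_sum]
    simp

/-- polynomials of degree one -/
theorem affine {q : MvPolynomial (Fin 3) k} (hq : q.totalDegree ≤ 1) :
    ∃ (c : k) (M : Fin 3 → k), q = C c + ∑ m, C (M m) * X m := by
  have h1 : homogeneousComponent 0 q + homogeneousComponent 1 q = q := by
    conv_rhs => rw [← sum_homogeneousComponent q]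
    have h2 : ∑ i ∈ Finset.range (q.totalDegree + 1), homogeneousComponent i q =
        ∑ i ∈ Finset.range 2, homogeneousComponent i q := by
      apply Finset.sum_subset
      · intro i hi
        have := Finset.mem_range.1 hi
        exact Finset.mem_range.2 (by omega)
      · intro i _ hi
        apply homogeneousComponent_eq_zero
        have h3 : ¬ i < q.totalDegree + 1 := fun h => hi (Finset.mem_range.2 h)
        omega
    rw [h2, Finset.sum_range_succ, Finset.sum_range_one]
  have h4 : ∀ m, ∃ a : k, pderiv m (homogeneousComponent 1 q) = C a := by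
    intro m
    have h5 : (pderiv m (homogeneousComponent 1 q)).IsHomogeneous (1 - 1) :=
      (homogeneousComponent_isHomogeneous 1 q).pderiv
    exact ⟨_, totalDegree_eq_zero_iff_eq_C.1 (Nat.le_zero.1 h5.totalDegree_le)⟩
  choose M hM using h4
  refine ⟨coeff 0 q, M, ?_⟩
  conv_lhs => rw [← h1]
  rw [homogeneousComponent_zero]
  congr 1
  have h6 := (homogeneousComponent_isHomogeneous 1 q).sum_X_mul_pderiv
  rw [one_smul] at h6
  rw [← h6]
  refine Finset.sum_congr rfl fun m _ => ?_
  rw [hM, mul_comm]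

theorem lin_shift (M : Fin 3 → Fin 3 → k) (a t : k) (l : Fin 3) :
    lin (Matrix.of fun l m => a * M l m - if l = m then t else 0) l =
      C a * lin M l - C t * X l := by
  unfold lin
  have e1 : ∀ m, (C ((Matrix.of fun l m => a * M l m - if l = m then t else 0) l m) :
      MvPolynomial (Fin 3) k) * X m =
      C a * (C (M l m) * X m) - (if l = m then C t * X m else 0) := by
    intro m
    rw [Matrix.of_apply, map_sub, map_mul, sub_mul, mul_assoc]
    by_cases h : l = m
    · rw [if_pos h, if_pos h]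
    · rw [if_neg h, if_neg h, map_zero, zero_mul]
  rw [Finset.sum_congr rfl fun m _ => e1 m, Finset.sum_sub_distrib, ← Finset.mul_sum,
    Finset.sum_ite_eq, if_pos (Finset.mem_univ l)]

theorem lin_col (c : Fin 3 → k) (l : Fin 3) :
    lin (Matrix.of fun l m => if m = (0 : Fin 3) then c l else 0) l = C (c l) * X 0 := by
  unfold lin
  have e1 : ∀ m, (C ((Matrix.of fun l m => if m = (0 : Fin 3) then c l else 0) l m) :
      MvPolynomial (Fin 3) k) * X m = if m = 0 then C (c l) * X m else 0 := by
    intro m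
    rw [Matrix.of_apply]
    by_cases h : m = 0
    · rw [if_pos h, if_pos h]
    · rw [if_neg h, if_neg h, map_zero, zero_mul]
  rw [Finset.sum_congr rfl fun m _ => e1 m, Finset.sum_ite_eq', if_pos (Finset.mem_univ _)]

variable [CharZero k]

/-- Poisson derivations of degree at most zero vanish -/
theorem der_zero (hn : 4 ≤ n) (hΩ : Ω.IsHomogeneous n) (hiso : IsIsolatedSingularity Ω)
    {D : PotQuot Ω ξ →ₗ[k] PotQuot Ω ξ} (hD : ∀ a b, D (a * b) = D a * b + a * D b)
    (hP : ∀ a b, D (potBracket Ω ξ a b) = potBracket Ω ξ (D a) b + potBracket Ω ξ a (D b))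
    (h1 : ∀ l, D (pmk Ω ξ (X l)) ∈ le Ω ξ 1) (l : Fin 3) : D (pmk Ω ξ (X l)) = 0 := by
  have h0 : Ω ≠ 0 := ne_zero_of_isolated hiso
  have hn0 : n ≠ 0 := by omega
  have hnk : (n : k) ≠ 0 := by exact_mod_cast hn0
  have h2 : ∀ l, ∃ (c : k) (M : Fin 3 → k),
      D (pmk Ω ξ (X l)) = pmk Ω ξ (C c + ∑ m, C (M m) * X m) := by
    intro l
    obtain ⟨q, hq, hq2⟩ := mem_le.1 (h1 l)
    obtain ⟨c, M, hcM⟩ := affine hq
    exact ⟨c, M, by rw [← hcM, hq2]⟩
  choose c M hcM using h2
  have hlin : ∀ l, ∑ m, C (M l m) * X m = lin M l := fun l => rfl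
  -- the relation
  have hrel : ∑ l, pderiv l Ω * (C (c l) + lin M l) ∈ Ideal.span {Ω - C ξ} := by
    rw [← pmk_eq_zero, map_sum]
    have e1 : pmk Ω ξ Ω = pmk Ω ξ (C ξ) := by
      rw [pmk_eq]
      exact Ideal.mem_span_singleton_self _
    have e2 := der_mk hD Ω
    have e3 := der_mk hD (C ξ)
    rw [e1, e3] at e2
    simp only [pderiv_C, map_zero, zero_mul, Finset.sum_const_zero] at e2
    rw [e2]
    refine Finset.sum_congr rfl fun l _ => ?_
    rw [map_mul, hcM]
    rfl
  have hpd : ∀ l, (pderiv l Ω).IsHomogeneous (n - 1) := fun l => hΩ.pderiv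
  have hlin1 : ∀ l, (lin M l).IsHomogeneous 1 := by
    intro l
    unfold lin
    apply IsHomogeneous.sum
    intro m _
    have := (isHomogeneous_C (Fin 3) (M l m)).mul (isHomogeneous_X k m)
    rwa [zero_add] at this
  have hA : (∑ l, pderiv l Ω * C (c l)).IsHomogeneous (n - 1) := by
    apply IsHomogeneous.sum
    intro l _
    have := (hpd l).mul (isHomogeneous_C (Fin 3) (c l))
    rwa [add_zero] at this
  have hB : (∑ l, pderiv l Ω * lin M l).IsHomogeneous n := by
    apply IsHomogeneous.sum
    intro l _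
    have := (hpd l).mul (hlin1 l)
    rwa [Nat.sub_add_cancel (by omega)] at this
  have hsplit : ∑ l, pderiv l Ω * (C (c l) + lin M l) =
      ∑ l, pderiv l Ω * C (c l) + ∑ l, pderiv l Ω * lin M l := by
    rw [← Finset.sum_add_distrib]
    exact Finset.sum_congr rfl fun l _ => mul_add _ _ _
  rw [hsplit] at hrel
  obtain ⟨t, ht⟩ := mem_span_small hΩ h0 hn0 hrel (by
    refine (totalDegree_add _ _).trans (max_le ?_ hB.totalDegree_le)
    exact hA.totalDegree_le.trans (Nat.sub_le _ _))
  have hΩt : (C t * Ω).IsHomogeneous n := by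
    have := (isHomogeneous_C (Fin 3) t).mul hΩ
    rwa [zero_add] at this
  have hCt : (C t * C ξ : MvPolynomial (Fin 3) k).IsHomogeneous 0 := by
    rw [← C_mul]
    exact isHomogeneous_C _ _
  rw [mul_sub] at ht
  have hBt : ∑ l, pderiv l Ω * lin M l = C t * Ω := by
    have e := congrArg (homogeneousComponent n) ht
    rw [map_add, map_sub, homogeneousComponent_of_mem hA, homogeneousComponent_of_mem hB,
      homogeneousComponent_of_mem hΩt, homogeneousComponent_of_mem hCt, if_neg (by omega),
      if_pos rfl, if_pos rfl, if_neg (by omega), zero_add, sub_zero] at e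
    exact e
  have hAt : ∑ l, pderiv l Ω * C (c l) = 0 := by
    have e := congrArg (homogeneousComponent (n - 1)) ht
    rw [map_add, map_sub, homogeneousComponent_of_mem hA, homogeneousComponent_of_mem hB,
      homogeneousComponent_of_mem hΩt, homogeneousComponent_of_mem hCt, if_pos rfl,
      if_neg (by omega), if_neg (by omega), if_neg (by omega), add_zero, sub_zero] at e
    exact e
  have heuler := hΩ.sum_X_mul_pderiv
  have hiso' := exists_pow_mem hΩ hiso
  -- the constants vanish
  have hc0 : ∀ l, c l = 0 := by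
    have hz : ∑ l, lin (Matrix.of fun l m => if m = (0 : Fin 3) then c l else 0) l *
        pderiv l Ω = 0 := by
      have e : ∀ l, lin (Matrix.of fun l m => if m = (0 : Fin 3) then c l else 0) l * pderiv l Ω =
          X 0 * (pderiv l Ω * C (c l)) := by
        intro l
        rw [lin_col]
        ring
      rw [Finset.sum_congr rfl fun l _ => e l, ← Finset.mul_sum, hAt, mul_zero]
    have h4 := no_syz (by omega) hΩ hiso' hz
    intro l
    have h3 := congrFun (congrFun h4 l) 0
    rw [Matrix.of_apply, if_pos rfl] at h3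
    exact h3
  -- the linear part is scalar
  obtain ⟨μ, hμ⟩ : ∃ μ : k, μ = t / n := ⟨_, rfl⟩
  have hM : ∀ l m, M l m = if l = m then μ else 0 := by
    have hz : ∑ l, lin (Matrix.of fun l m => (n : k) * M l m - if l = m then t else 0) l *
        pderiv l Ω = 0 := by
      have e : ∀ l, lin (Matrix.of fun l m => (n : k) * M l m - if l = m then t else 0) l *
          pderiv l Ω = C (n : k) * (pderiv l Ω * lin M l) - C t * (X l * pderiv l Ω) := by
        intro l
        rw [lin_shift]
        ring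
      rw [Finset.sum_congr rfl fun l _ => e l, Finset.sum_sub_distrib, ← Finset.mul_sum,
        ← Finset.mul_sum, hBt, heuler, nsmul_eq_mul, map_natCast]
      ring
    have h4 := no_syz (by omega) hΩ hiso' hz
    intro l m
    have h3 := congrFun (congrFun h4 l) m
    rw [Matrix.of_apply] at h3
    have h5 : (n : k) * M l m = if l = m then t else 0 := sub_eq_zero.1 h3
    rw [hμ]
    split_ifs with h
    · rw [if_pos h] at h5
      rw [eq_div_iff hnk, ← h5, mul_comm]
    · rw [if_neg h] at h5
      exact (mul_eq_zero.1 h5).resolve_left hnk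
  have hval : ∀ l, D (pmk Ω ξ (X l)) = μ • pmk Ω ξ (X l) := by
    intro l
    rw [hcM, hc0, C_0, zero_add, Finset.sum_eq_single l]
    · rw [hM, if_pos rfl, map_mul, Algebra.smul_def]
      congr 1
    · intro m _ hm
      rw [hM, if_neg (Ne.symm hm), C_0, zero_mul]
    · intro h
      exact absurd (Finset.mem_univ _) h
  -- the Poisson condition
  have hhom : ∀ j, D (pmk Ω ξ (pderiv j Ω)) = (((n - 1 : ℕ) : k) * μ) • pmk Ω ξ (pderiv j Ω) := by
    intro j
    rw [der_mk hD]
    have e1 := congrArg (pmk Ω ξ) (hpd j).sum_X_mul_pderiv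
    rw [map_sum, map_nsmul] at e1
    have e2 : ∀ l, pmk Ω ξ (pderiv l (pderiv j Ω)) * D (pmk Ω ξ (X l)) =
        μ • pmk Ω ξ (X l * pderiv l (pderiv j Ω)) := by
      intro l
      rw [hval, mul_smul_comm, map_mul, mul_comm]
    rw [Finset.sum_congr rfl fun l _ => e2 l, ← Finset.smul_sum, e1, ← Nat.cast_smul_eq_nsmul k,
      smul_smul, mul_comm]
  have hbr : ∀ a b : Fin 3, D (pmk Ω ξ (jac Ω (X a) (X b))) =
      (2 * μ) • pmk Ω ξ (jac Ω (X a) (X b)) := by
    intro a b
    rw [← potBracket_mk, hP, hval, hval, map_smul, LinearMap.smul_apply, map_smul, ← add_smul]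
    congr 1
    ring
  have a0 : D (pmk Ω ξ (pderiv 0 Ω)) = (2 * μ) • pmk Ω ξ (pderiv 0 Ω) := by
    have := hbr 1 2
    rwa [jac_X12] at this
  have a1 : D (pmk Ω ξ (pderiv 1 Ω)) = (2 * μ) • pmk Ω ξ (pderiv 1 Ω) := by
    have := hbr 2 0
    rwa [jac_X20] at this
  have a2 : D (pmk Ω ξ (pderiv 2 Ω)) = (2 * μ) • pmk Ω ξ (pderiv 2 Ω) := by
    have := hbr 0 1
    rwa [jac_X01] at this
  have aa : ∀ j, D (pmk Ω ξ (pderiv j Ω)) = (2 * μ) • pmk Ω ξ (pderiv j Ω) := fun j =>
    match j with
    | 0 => a0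
    | 1 => a1
    | 2 => a2
  have hμ0 : μ = 0 := by
    by_contra hne
    have hj : ∀ j, pmk Ω ξ (pderiv j Ω) = 0 := by
      intro j
      have h3 := aa j
      rw [hhom, ← sub_eq_zero, ← sub_smul] at h3
      rcases smul_eq_zero.1 h3 with h4 | h4
      · exfalso
        have h5 : (((n - 1 : ℕ) : k) - 2) * μ = 0 := by linear_combination h4
        rcases mul_eq_zero.1 h5 with h6 | h6
        · have h7 : ((n - 1 : ℕ) : k) = ((2 : ℕ) : k) := by
            push_cast
            linear_combination h6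
          have h8 : n - 1 = 2 := by exact_mod_cast h7
          omega
        · exact hne h6
      · exact h4
    have hz : ∀ j, pderiv j Ω = 0 := fun j =>
      mem_span_lt hΩ h0 hn0 (pmk_eq_zero.1 (hj j))
        (lt_of_le_of_lt (hpd j).totalDegree_le (by omega))
    have h9 : (n : MvPolynomial (Fin 3) k) * Ω = 0 := by
      rw [← nsmul_eq_mul, ← heuler]
      exact Finset.sum_eq_zero fun l _ => by rw [hz, mul_zero]
    rcases mul_eq_zero.1 h9 with h10 | h10
    · exact hn0 (by exact_mod_cast h10)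
    · exact h0 h10
  rw [hval, hμ0, zero_smul]

end Pool.Agent.J4.H4.PF
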