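import Mathlib
import Pool.Agent.J4.H4.PF.Fin
import Pool.Agent.J4.H4.PF.One

/-!
# Finiteness of the group of Poisson automorphisms of a tensor product of potential quotients
-/

set_option autoImplicit false
set_option linter.unusedSectionVars false

open scoped TensorProduct
open PiTensorProduct
open Pool.Agent.N1.Poi

noncomputable section

namespace Pool.Agent.J4.H4.PF

universe u

/-- the sharp degree bound -/
theorem degree_bound' {k : Type u} [Field k] {T : Type u} [CommRing T] [Algebra k T]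
    {F : ℕ → Submodule k T} (hF : GoodFilt k T F) {br : T → T → T} {c m₀ : ℕ}
    (hbr : ∀ {a b x y}, x ∈ F a → y ∈ F b → br x y ∈ F (a + b + c))
    {Ω : MvPolynomial (Fin 3) k} {n : ℕ} (hn : 4 ≤ n) (hΩ : Ω.IsHomogeneous n)
    (hiso : IsIsolatedSingularity Ω) (x : Fin 3 → T)
    (h01 : br (x 0) (x 1) = MvPolynomial.aeval x (MvPolynomial.pderiv 2 Ω))
    (h12 : br (x 1) (x 2) = MvPolynomial.aeval x (MvPolynomial.pderiv 0 Ω))
    (h20 : br (x 2) (x 0) = MvPolynomial.aeval x (MvPolynomial.pderiv 1 Ω))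
    (hm : ∀ M, m₀ ≤ M → c + 1 ≤ (n - 3) * (M + 1)) (l : Fin 3) : x l ∈ F m₀ := by
  obtain ⟨e, he, hcof⟩ := exists_cofactors hΩ hiso
  have step : ∀ M, m₀ ≤ M → (∀ l, x l ∈ F (M + 1)) → ∀ l, x l ∈ F M := by
    intro M hM hx l
    refine hF.of_pow e (hx l) ?_
    have hd : ∀ j, MvPolynomial.aeval x (MvPolynomial.pderiv j Ω) ∈
        F ((n - 1) * (M + 1) - 1) := by
      have hle : M + 1 + (M + 1) + c ≤ (n - 1) * (M + 1) - 1 := by
        have h1 := hm M hM
        have h2 : (n - 1) * (M + 1) = (n - 3) * (M + 1) + 2 * (M + 1) := by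
          rw [← add_mul]
          congr 1
          omega
        omega
      intro j
      fin_cases j
      · exact h12 ▸ hF.mono hle (hbr (hx 1) (hx 2))
      · exact h20 ▸ hF.mono hle (hbr (hx 2) (hx 0))
      · exact h01 ▸ hF.mono hle (hbr (hx 0) (hx 1))
    obtain ⟨q, hq, hX⟩ := hcof l
    have h1 := congrArg (MvPolynomial.aeval x) hX
    rw [map_pow, MvPolynomial.aeval_X, map_sum] at h1
    rw [h1]
    refine Submodule.sum_mem _ fun j _ => ?_
    rw [map_mul]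
    have h2 := hF.mul (hF.aeval hx (hq j)) (hd j)
    refine hF.mono ?_ h2
    have h3 : 1 ≤ (n - 1) * (M + 1) :=
      Nat.one_le_iff_ne_zero.2 (Nat.mul_ne_zero (by omega) (by omega))
    have h4 : (2 ^ e - (n - 1)) * (M + 1) + (n - 1) * (M + 1) = 2 ^ e * (M + 1) := by
      rw [← add_mul, Nat.sub_add_cancel he]
    omega
  obtain ⟨a, ha⟩ : ∃ a, ∀ l, x l ∈ F a := by
    choose a ha using fun l => hF.exh (x l)
    refine ⟨a 0 + a 1 + a 2, fun l => hF.mono ?_ (ha l)⟩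
    fin_cases l <;> simp <;> omega
  have down : ∀ t, ∀ l, x l ∈ F (m₀ + (a - t)) := by
    intro t
    induction t with
    | zero => exact fun l => hF.mono (by omega) (ha l)
    | succ t ih =>
      by_cases h : a - t = 0
      · have h1 : a - (t + 1) = a - t := by omega
        rw [h1]
        exact ih
      · have h1 : m₀ + (a - t) = m₀ + (a - (t + 1)) + 1 := by omega
        rw [h1] at ih
        exact step _ (by omega) ih
  have h1 := down a l
  rwa [Nat.sub_self, add_zero] at h1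

variable {k : Type u} [Field k] {ι : Type} [DecidableEq ι] [Fintype ι]
  {Ω : ι → MvPolynomial (Fin 3) k} {ξ : ι → k}

/-- endomorphisms preserve the degree of the generators of a factor in the factor -/
theorem gen_mem_one {n : ι → ℕ} (hn : ∀ i, 4 ≤ n i) (hΩ : ∀ i, (Ω i).IsHomogeneous (n i))
    (hiso : ∀ i, IsIsolatedSingularity (Ω i)) (ψ : Tens Ω ξ →ₐ[k] Tens Ω ξ)
    (hψ : ∀ a b, ψ (tensBr Ω ξ a b) = tensBr Ω ξ (ψ a) (ψ b)) (i : ι) (l : Fin 3) :
    ψ (gen Ω ξ i l) ∈ Fil Ω ξ i 1 := by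
  have hni := hn i
  refine degree_bound' (goodFilt hn hΩ hiso i) (br := fun x y => tensBr Ω ξ x y) (c := n i - 3)
    (m₀ := 1) (fun hx hy => Fil_br hn hΩ hx hy) (hn i) (hΩ i) (hiso i)
    (fun l => ψ (gen Ω ξ i l)) ?_ ?_ ?_ ?_ l
  · rw [aeval_gen]
    rw [← hψ, gen, gen, tensBr_single, potBracket_mk, jac_X01]
  · rw [aeval_gen]
    rw [← hψ, gen, gen, tensBr_single, potBracket_mk, jac_X12]
  · rw [aeval_gen]
    rw [← hψ, gen, gen, tensBr_single, potBracket_mk, jac_X20]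
  · intro M hM
    have h1 : (n i - 3) * 2 ≤ (n i - 3) * (M + 1) := Nat.mul_le_mul_left _ (by omega)
    omega

/-! ### Slices -/

/-- the inclusion of a factor -/
abbrev inc (Ω : ι → MvPolynomial (Fin 3) k) (ξ : ι → k) (i : ι) :
    PotQuot (Ω i) (ξ i) →ₐ[k] Tens Ω ξ :=
  singleAlgHom (R := k) (A := fun i => PotQuot (Ω i) (ξ i)) i

/-- the slice of the tensor product by a functional on the other factors -/
def sl (i : ι) (lam : Rest k (fun j => PotQuot (Ω j) (ξ j)) i →ₗ[k] k) :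
    Tens Ω ξ →ₗ[k] PotQuot (Ω i) (ξ i) :=
  (TensorProduct.lid k (PotQuot (Ω i) (ξ i))).toLinearMap ∘ₗ
    (lam.rTensor (PotQuot (Ω i) (ξ i))) ∘ₗ (split k (fun j => PotQuot (Ω j) (ξ j)) i).toLinearMap

theorem sl_tprod (i : ι) (lam : Rest k (fun j => PotQuot (Ω j) (ξ j)) i →ₗ[k] k)
    (p : ∀ j, PotQuot (Ω j) (ξ j)) :
    sl i lam (tprod k p) = lam (tprod k fun j : {j // j ≠ i} => p j) • p i := by
  unfold sl
  rw [LinearMap.comp_apply, LinearMap.comp_apply, AlgHom.toLinearMap_apply, split_tprod,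
    LinearMap.rTensor_tmul]
  exact TensorProduct.lid_tmul _ _

theorem tens_induction {W : Type*} [AddCommGroup W] [Module k W] (f g : Tens Ω ξ →ₗ[k] W)
    (h : ∀ p : ∀ j, PotQuot (Ω j) (ξ j), f (tprod k p) = g (tprod k p)) (t : Tens Ω ξ) :
    f t = g t := by
  induction t using PiTensorProduct.induction_on with
  | smul_tprod r p => rw [map_smul, map_smul, h]
  | add x y hx hy => rw [map_add, map_add, hx, hy]

theorem inc_eq (i : ι) (b : PotQuot (Ω i) (ξ i)) :
    inc Ω ξ i b = PiTensorProduct.tprod k (Pi.mulSingle i b : ∀ j, PotQuot (Ω j) (ξ j)) :=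
  singleAlgHom_apply _ _

theorem sl_mul (i : ι) (lam : Rest k (fun j => PotQuot (Ω j) (ξ j)) i →ₗ[k] k)
    (b : PotQuot (Ω i) (ξ i)) (t : Tens Ω ξ) : sl i lam (t * inc Ω ξ i b) = sl i lam t * b := by
  refine tens_induction (sl i lam ∘ₗ LinearMap.mulRight k (inc Ω ξ i b))
    (LinearMap.mulRight k b ∘ₗ sl i lam) (fun p => ?_) t
  rw [LinearMap.comp_apply, LinearMap.comp_apply, LinearMap.mulRight_apply,
    LinearMap.mulRight_apply, inc_eq, tprod_mul_tprod, sl_tprod, sl_tprod, smul_mul_assoc]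
  congr 2
  · congr 1
    funext j
    rw [Pi.mul_apply, Pi.mulSingle_eq_of_ne j.2, mul_one]
  · rw [Pi.mul_apply, Pi.mulSingle_eq_same]

theorem potBracket_one_right (Ω : MvPolynomial (Fin 3) k) (ξ : k) (a : PotQuot Ω ξ) :
    potBracket Ω ξ a 1 = 0 := by
  obtain ⟨f, rfl⟩ := pmk_surjective Ω ξ a
  rw [← map_one (pmk Ω ξ), potBracket_mk, ← MvPolynomial.C_1, jac_C_right, map_zero]

theorem potBracket_one_left (Ω : MvPolynomial (Fin 3) k) (ξ : k) (a : PotQuot Ω ξ) :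
    potBracket Ω ξ 1 a = 0 := by
  obtain ⟨f, rfl⟩ := pmk_surjective Ω ξ a
  rw [← map_one (pmk Ω ξ), potBracket_mk, ← MvPolynomial.C_1, jac_C_left, map_zero]

theorem sl_br_right (i : ι) (lam : Rest k (fun j => PotQuot (Ω j) (ξ j)) i →ₗ[k] k)
    (b : PotQuot (Ω i) (ξ i)) (t : Tens Ω ξ) :
    sl i lam (tensBr Ω ξ t (inc Ω ξ i b)) = potBracket (Ω i) (ξ i) (sl i lam t) b := by
  refine tens_induction (sl i lam ∘ₗ (tensBr Ω ξ).flip (inc Ω ξ i b))
    ((potBracket (Ω i) (ξ i)).flip b ∘ₗ sl i lam) (fun p => ?_) t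
  rw [LinearMap.comp_apply, LinearMap.comp_apply, LinearMap.flip_apply, LinearMap.flip_apply,
    inc_eq, tensorBracket_tprod, map_sum, sl_tprod, map_smul, LinearMap.smul_apply,
    Finset.sum_eq_single i]
  · rw [sl_tprod, Function.update_self, Pi.mulSingle_eq_same]
    congr 3
    funext j
    rw [Function.update_of_ne j.2, Pi.mulSingle_eq_of_ne j.2, mul_one]
  · intro s _ hs
    rw [Pi.mulSingle_eq_of_ne hs, potBracket_one_right]
    have e : tprod k (Function.update (fun j => p j * (Pi.mulSingle i b :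
        ∀ j, PotQuot (Ω j) (ξ j)) j) s 0) = 0 := by
      refine MultilinearMap.map_coord_zero _ s ?_
      rw [Function.update_self]
    rw [e, map_zero]
  · intro h
    exact absurd (Finset.mem_univ _) h

theorem sl_br_left (i : ι) (lam : Rest k (fun j => PotQuot (Ω j) (ξ j)) i →ₗ[k] k)
    (b : PotQuot (Ω i) (ξ i)) (t : Tens Ω ξ) :
    sl i lam (tensBr Ω ξ (inc Ω ξ i b) t) = potBracket (Ω i) (ξ i) b (sl i lam t) := by
  refine tens_induction (sl i lam ∘ₗ (tensBr Ω ξ) (inc Ω ξ i b))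
    ((potBracket (Ω i) (ξ i)) b ∘ₗ sl i lam) (fun p => ?_) t
  rw [LinearMap.comp_apply, LinearMap.comp_apply,
    inc_eq, tensorBracket_tprod, map_sum, sl_tprod, map_smul,
    Finset.sum_eq_single i]
  · rw [sl_tprod, Function.update_self, Pi.mulSingle_eq_same]
    congr 3
    funext j
    rw [Function.update_of_ne j.2, Pi.mulSingle_eq_of_ne j.2, one_mul]
  · intro s _ hs
    rw [Pi.mulSingle_eq_of_ne hs, potBracket_one_left]
    have e : tprod k (Function.update (fun j => (Pi.mulSingle i b :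
        ∀ j, PotQuot (Ω j) (ξ j)) j * p j) s 0) = 0 := by
      refine MultilinearMap.map_coord_zero _ s ?_
      rw [Function.update_self]
    rw [e, map_zero]
  · intro h
    exact absurd (Finset.mem_univ _) h

theorem sl_mem (i : ι) (lam : Rest k (fun j => PotQuot (Ω j) (ξ j)) i →ₗ[k] k) {m : ℕ}
    {t : Tens Ω ξ} (ht : t ∈ Fil Ω ξ i m) : sl i lam t ∈ le (Ω i) (ξ i) m := by
  refine Fil_induction (sl i lam) _ (fun p hp => ?_) ht
  rw [sl_tprod]
  exact Submodule.smul_mem _ _ hp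

theorem eq_zero_of_sl (i : ι) {t : Tens Ω ξ} (h : ∀ lam, sl i lam t = 0) : t = 0 := by
  apply split_injective k (fun j => PotQuot (Ω j) (ξ j)) i
  rw [map_zero]
  let b := Module.Free.chooseBasis k (Rest k (fun j => PotQuot (Ω j) (ξ j)) i)
  apply (TensorProduct.equivFinsuppOfBasisLeft b).injective
  rw [map_zero]
  ext j
  rw [TensorProduct.equivFinsuppOfBasisLeft_apply, Finsupp.zero_apply]
  exact h (b.coord j)

theorem der_gen_zero [CharZero k] {n : ι → ℕ} (hn : ∀ i, 4 ≤ n i)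
    (hΩ : ∀ i, (Ω i).IsHomogeneous (n i)) (hiso : ∀ i, IsIsolatedSingularity (Ω i))
    {D : Tens Ω ξ →ₗ[k] Tens Ω ξ} (hD : ∀ a b, D (a * b) = D a * b + a * D b)
    (hP : ∀ a b, D (tensBr Ω ξ a b) = tensBr Ω ξ (D a) b + tensBr Ω ξ a (D b))
    (i : ι) (h1 : ∀ l, D (gen Ω ξ i l) ∈ Fil Ω ξ i 1) (l : Fin 3) : D (gen Ω ξ i l) = 0 := by
  apply eq_zero_of_sl i
  intro lam
  refine der_zero (hn i) (hΩ i) (hiso i)
    (D := sl i lam ∘ₗ D ∘ₗ (inc Ω ξ i).toLinearMap) (fun a b => ?_) (fun a b => ?_)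
    (fun l => sl_mem i lam (h1 l)) l
  · simp only [LinearMap.comp_apply, AlgHom.toLinearMap_apply]
    rw [map_mul, hD, map_add, sl_mul, mul_comm (inc Ω ξ i a), sl_mul, mul_comm a]
  · simp only [LinearMap.comp_apply, AlgHom.toLinearMap_apply]
    rw [← tensBr_single, hP, map_add, sl_br_right, sl_br_left]

/-! ### The theorem -/

/-- the group of automorphisms of an algebra that preserve a bracket -/
def autPoi {B : Type u} [CommRing B] [Algebra k B] (br : B →ₗ[k] B →ₗ[k] B) :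
    Subgroup (B ≃ₐ[k] B) where
  carrier := {φ | ∀ a b, φ (br a b) = br (φ a) (φ b)}
  one_mem' := fun _ _ => rfl
  mul_mem' := by
    intro φ ψ hφ hψ a b
    show φ (ψ (br a b)) = _
    rw [hψ, hφ]
    rfl
  inv_mem' := by
    intro φ hφ a b
    apply φ.injective
    have e : ∀ x, φ (φ⁻¹ x) = x := fun x => φ.apply_symm_apply x
    rw [e, hφ, e, e]

theorem adjoin_gen : Algebra.adjoin k (Set.range fun p : ι × Fin 3 => gen Ω ξ p.1 p.2) = ⊤ := by
  have h1 : ∀ j (a : PotQuot (Ω j) (ξ j)),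
      inc Ω ξ j a ∈ Algebra.adjoin k (Set.range fun p : ι × Fin 3 => gen Ω ξ p.1 p.2) := by
    intro j a
    obtain ⟨p, rfl⟩ := pmk_surjective (Ω j) (ξ j) a
    have h2 := aeval_gen (Ω := Ω) (ξ := ξ) j (AlgHom.id k _) p
    rw [AlgHom.id_apply] at h2
    show singleAlgHom (R := k) (A := fun i => PotQuot (Ω i) (ξ i)) j _ ∈ _
    rw [← h2]
    have h3 : MvPolynomial.aeval (fun l => (AlgHom.id k (Tens Ω ξ)) (gen Ω ξ j l)) p ∈
        Algebra.adjoin k (Set.range fun l => (AlgHom.id k (Tens Ω ξ)) (gen Ω ξ j l)) := by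
      rw [Algebra.adjoin_range_eq_range_aeval]
      exact ⟨p, rfl⟩
    refine (Algebra.adjoin_mono ?_) h3
    rintro _ ⟨l, rfl⟩
    exact ⟨(j, l), rfl⟩
  rw [eq_top_iff]
  intro x _
  induction x using PiTensorProduct.induction_on with
  | smul_tprod r p =>
    refine Subalgebra.smul_mem _ ?_ _
    rw [tprod_eq_prod k (fun i => PotQuot (Ω i) (ξ i)) p]
    exact Subalgebra.prod_mem _ fun j _ => h1 j _
  | add x y hx hy => exact add_mem (hx trivial) (hy trivial)

theorem finite_autPoi [CharZero k] {n : ι → ℕ} (hn : ∀ i, 4 ≤ n i)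
    (hΩ : ∀ i, (Ω i).IsHomogeneous (n i)) (hiso : ∀ i, IsIsolatedSingularity (Ω i)) :
    Finite (autPoi (tensBr Ω ξ)) := by
  have hbd : ∀ (g : autPoi (tensBr Ω ξ)) (i j : ι) (l : Fin 3),
      g.1 (gen Ω ξ j l) ∈ Fil Ω ξ i (n i - 3) := fun g i j l =>
    gen_mem hn hΩ hiso (g.1 : Tens Ω ξ →ₐ[k] Tens Ω ξ) g.2 i j l
  have hbd1 : ∀ (g : autPoi (tensBr Ω ξ)) (i : ι) (l : Fin 3),
      g.1 (gen Ω ξ i l) ∈ Fil Ω ξ i 1 := fun g i l =>
    gen_mem_one hn hΩ hiso (g.1 : Tens Ω ξ →ₐ[k] Tens Ω ξ) g.2 i l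
  refine finite_of_no_derivation (autPoi (tensBr Ω ξ)) (tensBr Ω ξ) (fun g hg => hg)
    (Set.range fun p : ι × Fin 3 => gen Ω ξ p.1 p.2) (Set.finite_range _) adjoin_gen ?_ ?_
  · rintro _ ⟨⟨j, l⟩, rfl⟩
    let N := ∑ i, n i
    have hfin := finite_inf (Ω := Ω) (ξ := ξ) N
    apply Submodule.finiteDimensional_of_le (S₂ := (⨅ i, Fil Ω ξ i N : Submodule k (Tens Ω ξ)))
    rw [Submodule.span_le]
    rintro _ ⟨g, rfl⟩
    refine (Submodule.mem_iInf _).2 fun i => Fil_mono ?_ (hbd g i j l)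
    exact (Nat.sub_le _ _).trans (Finset.single_le_sum (fun _ _ => Nat.zero_le _)
      (Finset.mem_univ i))
  · intro D hD hP hmem
    rintro _ ⟨⟨i, l⟩, rfl⟩
    refine der_gen_zero hn hΩ hiso hD hP i (fun l => ?_) l
    have h1 := hmem _ ⟨(i, l), rfl⟩
    refine (Submodule.span_le.2 ?_) h1
    rintro _ ⟨g, rfl⟩
    exact hbd1 g i l

end Pool.Agent.J4.H4.PF
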